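import Pool.Agent.Lib.MP_c7af3c_ag.SHARP.Base54
import Pool.Agent.Lib.MP_c7af3c_ag.GEN.H12.Reln

/-!
# MP_c7af3c_ag, project SHARP: restriction to a line; no lines on very general varieties
(module NOLINES)
-/

set_option autoImplicit false

namespace Pool.Agent.Sharp.H54

open MvPolynomial Pool.Agent.Gen Pool.Agent.Sharp

variable {L : Type} [Field L] {n : ℕ}

theorem lineP_eval (F : MvPolynomial (Fin (n + 1)) L) (x y : Fin (n + 1) → L) (t : L) :
    (lineP F x y).eval t = eval (fun p => x p + t * y p) F := by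
  unfold lineP
  rw [← Polynomial.coe_evalRingHom, aeval_def, hom_eval₂]
  have h1 : ((Polynomial.evalRingHom t).comp (algebraMap L (Polynomial L))) = RingHom.id L := by
    ext a
    simp
  rw [h1]
  have h2 : (fun p => (Polynomial.evalRingHom t) (Polynomial.C (x p) +
      Polynomial.X * Polynomial.C (y p))) = fun p => x p + t * y p := by
    funext p
    rw [Polynomial.coe_evalRingHom, Polynomial.eval_add, Polynomial.eval_mul, Polynomial.eval_C,
      Polynomial.eval_C, Polynomial.eval_X]
  rw [h2]
  rfl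

theorem lineP_add (F G : MvPolynomial (Fin (n + 1)) L) (x y : Fin (n + 1) → L) :
    lineP (F + G) x y = lineP F x y + lineP G x y := map_add _ _ _

theorem lineP_mul (F G : MvPolynomial (Fin (n + 1)) L) (x y : Fin (n + 1) → L) :
    lineP (F * G) x y = lineP F x y * lineP G x y := map_mul _ _ _

theorem lineP_pow (F : MvPolynomial (Fin (n + 1)) L) (k : ℕ) (x y : Fin (n + 1) → L) :
    lineP (F ^ k) x y = lineP F x y ^ k := map_pow _ _ _

theorem lineP_X (p : Fin (n + 1)) (x y : Fin (n + 1) → L) :
    lineP (X p) x y = Polynomial.C (x p) + Polynomial.X * Polynomial.C (y p) := aeval_X _ _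

theorem lineP_C (a : L) (x y : Fin (n + 1) → L) :
    lineP (C a) x y = Polynomial.C a := by
  unfold lineP
  rw [← algebraMap_eq, AlgHom.commutes]
  rfl

theorem lineP_derivative (F : MvPolynomial (Fin (n + 1)) L) (x y : Fin (n + 1) → L) :
    Polynomial.derivative (lineP F x y) =
      ∑ p, lineP (pderiv p F) x y * Polynomial.C (y p) := by
  classical
  induction F using MvPolynomial.induction_on with
  | C a => simp [lineP, Polynomial.derivative_C]
  | add p q hp hq =>
    rw [lineP_add, map_add, hp, hq, ← Finset.sum_add_distrib]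
    refine Finset.sum_congr rfl fun r _ => ?_
    rw [map_add, lineP_add, add_mul]
  | mul_X p i hp =>
    rw [lineP_mul, Polynomial.derivative_mul, hp, lineP_X]
    have : ∀ q, lineP (pderiv q (p * X i)) x y * Polynomial.C (y q) =
        (lineP (pderiv q p) x y * Polynomial.C (y q)) *
          (Polynomial.C (x i) + Polynomial.X * Polynomial.C (y i)) +
          (if q = i then lineP p x y * Polynomial.C (y i) else 0) := by
      intro q
      rw [Derivation.leibniz]
      simp only [smul_eq_mul]
      rw [lineP_add, lineP_mul, lineP_mul, lineP_X]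
      by_cases h : q = i
      · subst h
        simp [lineP]
        ring
      · rw [if_neg h, pderiv_X_of_ne (Ne.symm h)]
        have h0 : lineP (0 : MvPolynomial (Fin (n + 1)) L) x y = 0 := map_zero _
        rw [h0]
        ring
    simp only [this]
    rw [Finset.sum_add_distrib, ← Finset.sum_mul, Finset.sum_ite_eq' Finset.univ i]
    simp only [Finset.mem_univ, if_true, map_add, Polynomial.derivative_C, zero_add,
      Polynomial.derivative_mul, Polynomial.derivative_X, one_mul, mul_zero, add_zero]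

/-- the differential of the restriction -/
noncomputable def Phi {c : ℕ} {d : Fin c → ℕ} (D : DSys L n c d) (x y : Fin (n + 1) → L) :
    ((Fin (n + 1) → L) × (Fin (n + 1) → L)) →ₗ[L] (Fin c → Polynomial L) where
  toFun w m := ∑ p, lineP (pderiv p (D.F m)) x y *
    (Polynomial.C (w.1 p) + Polynomial.X * Polynomial.C (w.2 p))
  map_add' w w' := by
    funext m
    simp only [Prod.fst_add, Prod.snd_add, Pi.add_apply, map_add]
    rw [← Finset.sum_add_distrib]
    exact Finset.sum_congr rfl fun p _ => by ring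
  map_smul' a w := by
    funext m
    simp only [Prod.smul_fst, Prod.smul_snd, Pi.smul_apply, smul_eq_mul, map_mul,
      RingHom.id_apply, Polynomial.smul_eq_C_mul, Finset.mul_sum]
    exact Finset.sum_congr rfl fun p _ => by ring

theorem Phi_apply {c : ℕ} {d : Fin c → ℕ} (D : DSys L n c d) (x y : Fin (n + 1) → L)
    (w : (Fin (n + 1) → L) × (Fin (n + 1) → L)) (m : Fin c) :
    Phi D x y w m = ∑ p, lineP (pderiv p (D.F m)) x y *
      (Polynomial.C (w.1 p) + Polynomial.X * Polynomial.C (w.2 p)) := rfl

theorem lineP_euler {F : MvPolynomial (Fin (n + 1)) L} {k : ℕ} (hF : F.IsHomogeneous k)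
    (x y : Fin (n + 1) → L) :
    ∑ p, lineP (pderiv p F) x y * (Polynomial.C (x p) + Polynomial.X * Polynomial.C (y p)) =
      k • lineP F x y := by
  have h : lineP (∑ i, X i * (pderiv i) F) x y = lineP (k • F) x y := by
    rw [hF.sum_X_mul_pderiv]
  have h1 : lineP (k • F) x y = k • lineP F x y := map_nsmul _ _ _
  have h2 : lineP (∑ i, X i * (pderiv i) F) x y = ∑ i, lineP (X i * (pderiv i) F) x y :=
    map_sum _ _ _
  rw [h1, h2] at h
  rw [← h]
  refine Finset.sum_congr rfl fun p _ => ?_
  rw [lineP_mul, lineP_X, mul_comm]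

/-- the vectors `V_m(G)` of `x` and `y` are mapped to the restriction of `-G` -/
theorem Phi_V [CharZero L] {c : ℕ} {d : Fin c → ℕ} (D : DSys L n c d)
    (x y : Fin (n + 1) → L) (h : ∀ m, lineP (D.F m) x y = 0) (m : Fin c)
    (G : MvPolynomial (Fin (n + 1)) L) (hG : G.IsHomogeneous (d m)) :
    Phi D x y (D.V x m G, D.V y m G) = fun m' => if m = m' then - lineP G x y else 0 := by
  funext m'
  apply Polynomial.eq_of_infinite_eval_eq
  refine Set.Infinite.mono ?_ (Set.infinite_range_of_injective (f := fun k : ℕ => (k : L))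
    Nat.cast_injective)
  rintro _ ⟨k, rfl⟩
  simp only [Set.mem_ofPred_eq]
  have hz : ∀ m, eval (fun p => x p + (k : L) * y p) (D.F m) = 0 := by
    intro m
    rw [← lineP_eval, h m, Polynomial.eval_zero]
  have hr := Pool.Agent.Gen.H12.reln L n c d D (fun p => x p + (k : L) * y p) hz m m' G hG
  have hV : ∀ p, D.V (fun p => x p + (k : L) * y p) m G p =
      D.V x m G p + (k : L) * D.V y m G p := by
    intro p
    rw [D.V_apply, D.V_apply, D.V_apply, Finset.mul_sum, ← Finset.sum_add_distrib]
    refine Finset.sum_congr rfl fun I _ => ?_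
    have e1 : D.del m I (x p + (k : L) * y p) = D.del m I (x p) + (k : L) * D.del m I (y p) := by
      rw [map_add, ← nsmul_eq_mul, map_nsmul, nsmul_eq_mul]
    rw [e1]
    ring
  rw [Phi_apply, Polynomial.eval_finsetSum]
  have hl : ∀ p, Polynomial.eval (k : L) (lineP (pderiv p (D.F m')) x y *
      (Polynomial.C ((D.V x m G, D.V y m G).1 p) + Polynomial.X *
        Polynomial.C ((D.V x m G, D.V y m G).2 p))) =
      eval (fun p => x p + (k : L) * y p) (pderiv p (D.F m')) *
        D.V (fun p => x p + (k : L) * y p) m G p := by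
    intro p
    rw [Polynomial.eval_mul, lineP_eval, hV, Polynomial.eval_add, Polynomial.eval_mul,
      Polynomial.eval_C, Polynomial.eval_C, Polynomial.eval_X]
  rw [Finset.sum_congr rfl fun p _ => hl p, hr]
  split_ifs
  · rw [Polynomial.eval_neg, lineP_eval]
  · rw [Polynomial.eval_zero]

/-- polynomials on the line from forms: a form restricting to `T ^ k` -/
theorem exists_form {x y : Fin (n + 1) → L} (h : LinearIndependent L ![x, y]) (e k : ℕ)
    (hk : k ≤ e) : ∃ G : MvPolynomial (Fin (n + 1)) L, G.IsHomogeneous e ∧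
      lineP G x y = Polynomial.X ^ k := by
  classical
  obtain ⟨i, j, hij⟩ : ∃ i j, plu x y i j ≠ 0 := by
    have hx : x ≠ 0 := by
      have := h.ne_zero 0
      simpa using this
    obtain ⟨i, hi⟩ : ∃ i, x i ≠ 0 := Function.ne_iff.1 hx
    obtain ⟨j, hj⟩ := exists_plu_ne h hi
    exact ⟨i, j, hj⟩
  set δ := plu x y i j with hδ
  -- `α = (y_j X_i - y_i X_j)/δ`, `β = (x_i X_j - x_j X_i)/δ`
  set α : MvPolynomial (Fin (n + 1)) L := C (δ⁻¹ * y j) * X i + C (-(δ⁻¹ * y i)) * X j with hα
  set β : MvPolynomial (Fin (n + 1)) L := C (δ⁻¹ * x i) * X j + C (-(δ⁻¹ * x j)) * X i with hβ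
  have hαh : α.IsHomogeneous 1 := by
    rw [hα]
    refine IsHomogeneous.add ?_ ?_
    · simpa using (isHomogeneous_C _ (δ⁻¹ * y j)).mul (isHomogeneous_X L i)
    · simpa using (isHomogeneous_C _ (-(δ⁻¹ * y i))).mul (isHomogeneous_X L j)
  have hβh : β.IsHomogeneous 1 := by
    rw [hβ]
    refine IsHomogeneous.add ?_ ?_
    · simpa using (isHomogeneous_C _ (δ⁻¹ * x i)).mul (isHomogeneous_X L j)
    · simpa using (isHomogeneous_C _ (-(δ⁻¹ * x j))).mul (isHomogeneous_X L i)
  have hδ' : δ⁻¹ * (x i * y j - x j * y i) = 1 := by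
    rw [hδ]
    exact inv_mul_cancel₀ hij
  have hα1 : lineP α x y = 1 := by
    rw [hα, lineP_add, lineP_mul, lineP_mul, lineP_X, lineP_X, lineP_C, lineP_C]
    have e1 : (Polynomial.C (δ⁻¹ * (x i * y j - x j * y i)) : Polynomial L) = 1 := by
      rw [hδ', Polynomial.C_1]
    simp only [map_mul, map_sub, map_neg] at e1 ⊢
    linear_combination e1
  have hβ1 : lineP β x y = Polynomial.X := by
    rw [hβ, lineP_add, lineP_mul, lineP_mul, lineP_X, lineP_X, lineP_C, lineP_C]
    have e1 : (Polynomial.C (δ⁻¹ * (x i * y j - x j * y i)) : Polynomial L) = 1 := by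
      rw [hδ', Polynomial.C_1]
    simp only [map_mul, map_sub, map_neg] at e1 ⊢
    linear_combination Polynomial.X * e1
  refine ⟨α ^ (e - k) * β ^ k, ?_, ?_⟩
  · have h1 := (hαh.pow (e - k)).mul (hβh.pow k)
    have h2 : 1 * (e - k) + 1 * k = e := by omega
    rwa [h2] at h1
  · rw [lineP_mul, lineP_pow, lineP_pow, hα1, hβ1, one_pow, one_mul]

end Pool.Agent.Sharp.H54
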