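import Pool.Agent.Lib.MP_c7af3c_ag.SHARP.H54.RootH
import Pool.Agent.Lib.MP_c7af3c_ag.SHARP.H54.Line

/-!
# MP_c7af3c_ag, project SHARP: modules ROOT and CONTH
-/

set_option autoImplicit false

namespace Pool.Agent.Sharp.H54

open MvPolynomial WithZero Pool.Agent.Gen Pool.Agent.Sharp

variable {L : Type} [Field L] {n : ℕ}

/-- all coefficients are at most `r` -/
def CB (v : Valuation L ℤᵐ⁰) (f : Polynomial L) (r : ℤᵐ⁰) : Prop := ∀ k, v (f.coeff k) ≤ r

theorem CB.mul {v : Valuation L ℤᵐ⁰} {f g : Polynomial L} {r s : ℤᵐ⁰} (hf : CB v f r)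
    (hg : CB v g s) : CB v (f * g) (r * s) := by
  intro k
  rw [Polynomial.coeff_mul]
  refine v.map_sum_le fun i _ => ?_
  rw [map_mul]
  exact mul_le_mul' (hf _) (hg _)

theorem CB.one (v : Valuation L ℤᵐ⁰) : CB v (1 : Polynomial L) 1 := by
  intro k
  rw [Polynomial.coeff_one]
  split_ifs
  · rw [map_one]
  · rw [map_zero]; exact zero_le

theorem CB.pow {v : Valuation L ℤᵐ⁰} {f : Polynomial L} {r : ℤᵐ⁰} (hf : CB v f r) (m : ℕ) :
    CB v (f ^ m) (r ^ m) := by
  induction m with
  | zero => rw [pow_zero, pow_zero]; exact CB.one v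
  | succ m ih => rw [pow_succ, pow_succ]; exact ih.mul hf

theorem CB.prod {ι : Type} {v : Valuation L ℤᵐ⁰} (s : Finset ι) (f : ι → Polynomial L)
    (r : ι → ℤᵐ⁰) (h : ∀ i ∈ s, CB v (f i) (r i)) : CB v (∏ i ∈ s, f i) (∏ i ∈ s, r i) := by
  classical
  induction s using Finset.induction_on with
  | empty => rw [Finset.prod_empty, Finset.prod_empty]; exact CB.one v
  | insert a s ha ih =>
    rw [Finset.prod_insert ha, Finset.prod_insert ha]
    exact (h a (Finset.mem_insert_self _ _)).mul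
      (ih fun i hi => h i (Finset.mem_insert_of_mem hi))

theorem CB.sum {ι : Type} {v : Valuation L ℤᵐ⁰} (s : Finset ι) (f : ι → Polynomial L)
    (r : ℤᵐ⁰) (h : ∀ i ∈ s, CB v (f i) r) : CB v (∑ i ∈ s, f i) r := by
  intro k
  rw [Polynomial.finsetSum_coeff]
  exact v.map_sum_le fun i hi => h i hi k

/-- the coefficients of the restriction of a form to a line -/
theorem coeff_lineP_le {v : Valuation L ℤᵐ⁰} {F : MvPolynomial (Fin (n + 1)) L} {d : ℕ}
    (hF : F.IsHomogeneous d) {M q : ℤᵐ⁰} (hM : ∀ I, v (coeff I F) ≤ M)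
    {z z' : Fin (n + 1) → L} (hz : ∀ p, v (z p) ≤ q) (hz' : ∀ p, v (z' p) ≤ q) :
    CB v (lineP F z z') (M * q ^ d) := by
  classical
  have h1 : lineP F z z' = ∑ I ∈ F.support, Polynomial.C (coeff I F) *
      ∏ p, (Polynomial.C (z p) + Polynomial.X * Polynomial.C (z' p)) ^ (I p) := by
    unfold lineP
    rw [aeval_def, eval₂_eq']
    rfl
  rw [h1]
  refine CB.sum _ _ _ fun I hI => ?_
  have h2 : q ^ d = ∏ p, q ^ (I p) := by
    rw [Finset.prod_pow_eq_pow_sum]
    congr 1
    have h3 := hF (mem_support_iff.1 hI)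
    rw [← h3, Finsupp.weight_apply, Finsupp.sum_fintype _ _ (fun _ => by simp)]
    exact Finset.sum_congr rfl fun p _ => by simp
  rw [h2]
  refine CB.mul ?_ (CB.prod _ _ _ fun p _ => CB.pow ?_ _)
  · intro k
    rw [Polynomial.coeff_C]
    split_ifs
    · exact hM I
    · rw [map_zero]; exact zero_le
  · intro k
    rw [Polynomial.coeff_add, Polynomial.coeff_C, Polynomial.coeff_mul_C, Polynomial.coeff_X]
    refine v.map_add_le ?_ ?_
    · split_ifs
      · exact hz p
      · rw [map_zero]; exact zero_le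
    · split_ifs
      · rw [one_mul]; exact hz' p
      · rw [zero_mul, map_zero]; exact zero_le

/-- the value of a form -/
theorem eval_form_le {v : Valuation L ℤᵐ⁰} {F : MvPolynomial (Fin (n + 1)) L} {d : ℕ}
    (hF : F.IsHomogeneous d) {M q : ℤᵐ⁰} (hM : ∀ I, v (coeff I F) ≤ M)
    {z : Fin (n + 1) → L} (hz : ∀ p, v (z p) ≤ q) : v (eval z F) ≤ M * q ^ d := by
  have h := coeff_lineP_le hF hM hz hz 0
  rw [Polynomial.coeff_zero_eq_eval_zero, lineP_eval] at h
  simpa using h

/-- evaluation of a form at a multiple -/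
theorem eval_smul_form {F : MvPolynomial (Fin (n + 1)) L} {d : ℕ} (hF : F.IsHomogeneous d)
    (a : L) (z : Fin (n + 1) → L) : eval (fun p => a * z p) F = a ^ d * eval z F := by
  classical
  rw [eval_eq', eval_eq', Finset.mul_sum]
  refine Finset.sum_congr rfl fun I hI => ?_
  have h2 : a ^ d = ∏ p, a ^ (I p) := by
    rw [Finset.prod_pow_eq_pow_sum]
    congr 1
    have h3 := hF (mem_support_iff.1 hI)
    rw [← h3, Finsupp.weight_apply, Finsupp.sum_fintype _ _ (fun _ => by simp)]
    exact Finset.sum_congr rfl fun p _ => by simp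
  rw [h2]
  simp only [mul_pow, Finset.prod_mul_distrib]
  ring

/-! ### weighted sums -/

theorem fs_supp {V : Type} (w : V → ℕ) {f : V → ℤ} (hf : {p | f p ≠ 0}.Finite) :
    (Function.support fun p => (w p : ℤ) * f p).Finite := by
  refine hf.subset fun p hp => ?_
  simp only [Function.mem_support, ne_eq, mul_eq_zero, not_or] at hp
  exact hp.2

theorem fs_add {V : Type} (w : V → ℕ) {f g : V → ℤ} (hf : {p | f p ≠ 0}.Finite)
    (hg : {p | g p ≠ 0}.Finite) : ∑ᶠ p, (w p : ℤ) * (f p + g p) =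
      ∑ᶠ p, (w p : ℤ) * f p + ∑ᶠ p, (w p : ℤ) * g p := by
  rw [← finsum_add_distrib (fs_supp w hf) (fs_supp w hg)]
  exact finsum_congr fun p => by ring

theorem fs_mul {V : Type} (w : V → ℕ) {f : V → ℤ} (_hf : {p | f p ≠ 0}.Finite) (a : ℤ) :
    ∑ᶠ p, (w p : ℤ) * (a * f p) = a * ∑ᶠ p, (w p : ℤ) * f p := by
  rw [mul_finsum]
  exact finsum_congr fun p => by ring

theorem fs_mono {V : Type} (w : V → ℕ) {f g : V → ℤ} (hf : {p | f p ≠ 0}.Finite)
    (hg : {p | g p ≠ 0}.Finite) (h : ∀ p, f p ≤ g p) :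
    ∑ᶠ p, (w p : ℤ) * f p ≤ ∑ᶠ p, (w p : ℤ) * g p := by
  classical
  set T : Finset V := hf.toFinset ∪ hg.toFinset with hT
  rw [finsum_eq_sum_of_support_subset (s := T) _ ?_, finsum_eq_sum_of_support_subset (s := T) _ ?_]
  · exact Finset.sum_le_sum fun p _ => mul_le_mul_of_nonneg_left (h p) (by positivity)
  · intro p hp
    simp only [Function.mem_support, ne_eq, mul_eq_zero, not_or] at hp
    rw [hT, Finset.coe_union, Set.Finite.coe_toFinset, Set.Finite.coe_toFinset]
    exact Or.inr hp.2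
  · intro p hp
    simp only [Function.mem_support, ne_eq, mul_eq_zero, not_or] at hp
    rw [hT, Finset.coe_union, Set.Finite.coe_toFinset, Set.Finite.coe_toFinset]
    exact Or.inl hp.2

theorem log_fin {V : Type} {f : V → ℤᵐ⁰} (hf : {p | f p ≠ 1}.Finite) :
    {p | log (f p) ≠ 0}.Finite := by
  refine hf.subset fun p hp => ?_
  simp only [Set.mem_ofPred_eq, ne_eq] at hp ⊢
  exact fun h => hp (by rw [h, log_one])

theorem fin_add {V : Type} {f g : V → ℤ} (hf : {p | f p ≠ 0}.Finite)
    (hg : {p | g p ≠ 0}.Finite) : {p | f p + g p ≠ 0}.Finite := by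
  refine (hf.union hg).subset fun p hp => ?_
  simp only [Set.mem_union, Set.mem_ofPred_eq, ne_eq] at hp ⊢
  by_contra hc
  push Not at hc
  exact hp (by rw [hc.1, hc.2, add_zero])

theorem fin_mul {V : Type} {f : V → ℤ} (hf : {p | f p ≠ 0}.Finite) (a : ℤ) :
    {p | a * f p ≠ 0}.Finite := by
  refine hf.subset fun p hp => ?_
  simp only [Set.mem_ofPred_eq, ne_eq] at hp ⊢
  exact fun h => hp (by rw [h, mul_zero])

/-- the value of the form at the vectors of the line -/
theorem pair_form [CharZero L] {F : MvPolynomial (Fin (n + 1)) L} {d : ℕ}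
    (hF : F.IsHomogeneous d) {x y : Fin (n + 1) → L} {γ : L}
    (h : lineP F x y = Polynomial.C γ * Polynomial.X ^ d) (s t : L) :
    eval (fun p => s * x p + t * y p) F = γ * t ^ d := by
  -- as a polynomial in `s`
  have key : lineP F (fun p => t * y p) x = Polynomial.C (γ * t ^ d) := by
    apply Polynomial.eq_of_infinite_eval_eq
    refine Set.Infinite.mono ?_ (Set.infinite_range_of_injective (f := fun k : ℕ => ((k + 1 : ℕ) : L))
      (fun a b hab => by
        have := Nat.cast_injective (R := L) hab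
        omega))
    rintro _ ⟨k, rfl⟩
    simp only [Set.mem_ofPred_eq]
    have hk : ((k + 1 : ℕ) : L) ≠ 0 := Nat.cast_ne_zero.2 (by omega)
    rw [lineP_eval, Polynomial.eval_C]
    have e1 : (fun p => t * y p + ((k + 1 : ℕ) : L) * x p) =
        fun p => ((k + 1 : ℕ) : L) * (x p + (t / ((k + 1 : ℕ) : L)) * y p) := by
      funext p
      field_simp
      ring
    rw [e1, eval_smul_form hF, ← lineP_eval, h, Polynomial.eval_mul, Polynomial.eval_C,
      Polynomial.eval_pow, Polynomial.eval_X, div_pow]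
    field_simp
  have h2 := congrArg (Polynomial.eval s) key
  rw [lineP_eval, Polynomial.eval_C] at h2
  rw [← h2]
  have e2 : (fun p => s * x p + t * y p) = fun p => t * y p + s * x p := by
    funext p
    ring
  rw [e2]

/-- Module CONTH. -/
theorem conth [CharZero L] {c : ℕ} {d : Fin c → ℕ} (S : PlaceSys L) (hS : S.IsProd)
    (D : DSys L n c d) (B : S.V → ℕ) (hB : BD S D B) {x y : Fin (n + 1) → L}
    (hli : LinearIndependent L ![x, y]) {j0 : Fin (n + 1)} (hj : x j0 ≠ 0) (m : Fin c) {γ : L}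
    (hγ : γ ≠ 0) (h : lineP (D.F m) x y = Polynomial.C γ * Polynomial.X ^ d m) :
    (d m : ℤ) * S.ht x ≤ d m * hL S x y + tot S B := by
  have hx : x ≠ 0 := fun h0 => hj (by rw [h0]; rfl)
  obtain ⟨i, hi⟩ := exists_plu_ne hli hj
  have f1 := log_fin (S.finite_mx x hS.fin hx)
  have f2 := log_fin (finite_mxP S x y hS.fin hi)
  have f3 := log_fin (hS.fin γ hγ)
  have f4 : {p | (B p : ℤ) ≠ 0}.Finite := by simpa using hB.fin
  have hloc : ∀ p, log (S.v p γ) + d m * log (S.mx x p) ≤ d m * log (mxP S x y p) + B p := by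
    intro p
    obtain ⟨k, hk⟩ := S.exists_mx x p
    have hk0 : S.mx x p ≠ 0 := S.mx_ne_zero x hx p
    have hq0 : mxP S x y p ≠ 0 := mxP_ne_zero S x y hi p
    have hγ0 : S.v p γ ≠ 0 := by rwa [Ne, map_eq_zero]
    have e1 : eval (fun q => plu x y k q) (D.F m) = γ * x k ^ d m := by
      rw [← pair_form (D.hom m) h (- y k) (x k)]
      have e0 : (fun q => plu x y k q) = fun q => - y k * x q + x k * y q := by
        funext q
        unfold plu
        ring
      rw [e0]
    have e2 := eval_form_le (D.hom m) (hB.F p m) (fun q => le_mxP S x y p k q)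
    rw [e1, map_mul, map_pow, hk] at e2
    rw [← exp_log hγ0, ← exp_log hk0, ← exp_log hq0, ← exp_nsmul, ← exp_nsmul, ← exp_add,
      ← exp_add] at e2
    have e3 := WithZero.exp_le_exp.1 e2
    simp only [nsmul_eq_mul] at e3
    linarith
  have h1 := fs_mono S.w (fin_add f3 (fin_mul f1 _)) (fin_add (fin_mul f2 _) f4) hloc
  rw [fs_add S.w f3 (fin_mul f1 _), fs_add S.w (fin_mul f2 _) f4, fs_mul S.w f1, fs_mul S.w f2,
    hS.prod γ hγ, zero_add] at h1
  exact h1

/-- Module ROOT. -/
theorem root [CharZero L] {c : ℕ} {d : Fin c → ℕ} (S : PlaceSys L) (hS : S.IsProd)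
    (D : DSys L n c d) (B : S.V → ℕ) (hB : BD S D B) {x y : Fin (n + 1) → L}
    (hli : LinearIndependent L ![x, y]) {j0 : Fin (n + 1)} (hj : x j0 = 1) (m : Fin c)
    (h0 : eval x (D.F m) = 0) (h : lineP (D.F m) x y ≠ 0) :
    S.ht x ≤ (d m + 1) * hL S x y + tot S B := by
  have hx : x ≠ 0 := fun h0 => one_ne_zero (by rw [← hj, h0]; rfl)
  obtain ⟨i, hi⟩ := exists_plu_ne hli (show x j0 ≠ 0 by rw [hj]; exact one_ne_zero)
  set P : L := plu x y j0 i with hP
  -- the vectors `z_i`, `z_j0` of the line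
  set za : Fin (n + 1) → L := fun q => plu x y j0 q with hza
  set zb : Fin (n + 1) → L := fun q => plu x y i q with hzb
  set Q := lineP (D.F m) zb za with hQd
  have hz : Q.eval (- x i) = 0 := by
    rw [hQd, lineP_eval]
    have e1 : (fun p => zb p + - x i * za p) = fun p => (- P) * x p := by
      funext p
      simp only [hza, hzb, hP, plu, hj]
      ring
    rw [e1, eval_smul_form (D.hom m), h0, mul_zero]
  have hQ : Q ≠ 0 := by
    intro hQ0
    have hy : (Polynomial.C 1 + Polynomial.X * Polynomial.C (y j0) : Polynomial L) ≠ 0 := by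
      intro hc
      have := congrArg (Polynomial.eval 0) hc
      simp at this
    have hne : lineP (D.F m) x y * (Polynomial.C 1 + Polynomial.X * Polynomial.C (y j0)) ≠ 0 :=
      mul_ne_zero h hy
    obtain ⟨t, ht⟩ : ∃ t, (lineP (D.F m) x y *
        (Polynomial.C 1 + Polynomial.X * Polynomial.C (y j0))).eval t ≠ 0 := by
      by_contra hc
      push Not at hc
      exact hne (Polynomial.funext fun t => by rw [hc t, Polynomial.eval_zero])
    rw [Polynomial.eval_mul, lineP_eval] at ht
    have ht1 := left_ne_zero_of_mul ht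
    have ht2 := right_ne_zero_of_mul ht
    simp only [Polynomial.eval_add, Polynomial.eval_C, Polynomial.eval_mul, Polynomial.eval_X]
      at ht2
    -- `x + t y = - (1 / P) ((1 + t y_j0) z_i - (x_i + t y_i) z_j0)`
    have e1 : (fun p => x p + t * y p) = fun p => (- (1 + t * y j0) / P) *
        (zb p + (- (x i + t * y i) / (1 + t * y j0)) * za p) := by
      funext p
      have e0 : P * (x p + t * y p) = (x i + t * y i) * za p - (1 + t * y j0) * zb p := by
        simp only [hza, hzb, hP, plu, hj]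
        ring
      have e0' : x p + t * y p = ((x i + t * y i) * za p - (1 + t * y j0) * zb p) / P := by
        rw [← e0]
        field_simp
      rw [e0']
      generalize za p = A
      generalize zb p = B'
      field_simp
      ring
    rw [e1, eval_smul_form (D.hom m), ← lineP_eval] at ht1
    apply ht1
    rw [← hQd, hQ0, Polynomial.eval_zero, mul_zero]
  have f1 := log_fin (S.finite_mx x hS.fin hx)
  have f2 := log_fin (finite_mxP S x y hS.fin hi)
  have f3 := log_fin (hS.fin P hi)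
  have f4 : {p | (B p : ℤ) ≠ 0}.Finite := by simpa using hB.fin
  have hx1 : (![1, - x i] : Fin 2 → L) ≠ 0 := fun h => one_ne_zero (congrFun h 0)
  have f5 := log_fin (S.finite_mx (n := 1) ![1, - x i] hS.fin hx1)
  have hq0 : ∀ p, mxP S x y p ≠ 0 := fun p => mxP_ne_zero S x y hi p
  have hroot := rooth S hS Q hQ (- x i) hz (fun p => d m * log (mxP S x y p) + B p)
    (fin_add (fin_mul f2 _) f4) (by
      intro p k
      have e2 := coeff_lineP_le (D.hom m) (hB.F p m) (fun q => le_mxP S x y p i q)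
        (fun q => le_mxP S x y p j0 q) k
      refine e2.trans (le_of_eq ?_)
      nth_rw 1 [← exp_log (hq0 p)]
      rw [← exp_nsmul, ← exp_add, nsmul_eq_mul, add_comm])
  have hloc : ∀ p, log (S.v p P) + log (S.mx x p) ≤
      log (mxP S x y p) + log (S.mx (n := 1) ![1, - x i] p) := by
    intro p
    obtain ⟨k, hk⟩ := S.exists_mx x p
    have hk0 : S.mx x p ≠ 0 := S.mx_ne_zero x hx p
    have hP0 : S.v p P ≠ 0 := by rwa [Ne, map_eq_zero]
    have hm0 : S.mx (n := 1) ![1, - x i] p ≠ 0 := S.mx_ne_zero (n := 1) _ hx1 p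
    have g1 : 1 ≤ S.mx (n := 1) ![1, - x i] p := by
      have := S.le_mx (n := 1) ![1, - x i] p 0
      simpa using this
    have g2 : S.v p (x i) ≤ S.mx (n := 1) ![1, - x i] p := by
      have := S.le_mx (n := 1) ![1, - x i] p 1
      simpa using this
    have e1 : P * x k = x i * za k - zb k := by
      simp only [hza, hzb, hP, plu, hj]
      ring
    have e2 : S.v p (P * x k) ≤ mxP S x y p * S.mx (n := 1) ![1, - x i] p := by
      rw [e1]
      refine (S.v p).map_sub_le ?_ ?_
      · rw [map_mul, mul_comm]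
        exact mul_le_mul' (le_mxP S x y p j0 k) g2
      · calc S.v p (zb k) ≤ mxP S x y p * 1 := by
              rw [mul_one]; exact le_mxP S x y p i k
          _ ≤ _ := mul_le_mul' le_rfl g1
    rw [map_mul, hk, ← exp_log hP0, ← exp_log hk0, ← exp_log (hq0 p), ← exp_log hm0, ← exp_add,
      ← exp_add] at e2
    exact WithZero.exp_le_exp.1 e2
  have h1 := fs_mono S.w (fin_add f3 f1) (fin_add f2 f5) hloc
  rw [fs_add S.w f3 f1, fs_add S.w f2 f5, hS.prod P hi, zero_add] at h1
  rw [fs_add S.w (fin_mul f2 _) f4, fs_mul S.w f2] at hroot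
  have e3 : S.ht x = ∑ᶠ p, (S.w p : ℤ) * log (S.mx x p) := rfl
  have e4 : S.ht (n := 1) ![1, - x i] = ∑ᶠ p, (S.w p : ℤ) * log (S.mx (n := 1) ![1, - x i] p) :=
    rfl
  have e5 : hL S x y = ∑ᶠ p, (S.w p : ℤ) * log (mxP S x y p) := rfl
  have e6 : tot S B = ∑ᶠ p, (S.w p : ℤ) * B p := rfl
  rw [e3, e5, e6]
  rw [e4] at hroot
  linarith

end Pool.Agent.Sharp.H54
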