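import Pool.Agent.Lib.MP_c7af3c_ag.SHARP.H54.Line

/-!
# MP_c7af3c_ag, project SHARP: no lines on very general varieties (module NOLINES)
-/

set_option autoImplicit false

namespace Pool.Agent.Sharp.H54

open MvPolynomial Pool.Agent.Gen Pool.Agent.Sharp

variable {L : Type} [Field L] {n : ℕ}

/-- Module NOLINES. -/
theorem nolines [CharZero L] {c : ℕ} {d : Fin c → ℕ} (D : DSys L n c d)
    {x y : Fin (n + 1) → L} (hxy : LinearIndependent L ![x, y])
    (hdim : 2 * n ≤ c + ∑ m, d m + 1) : ∃ m, lineP (D.F m) x y ≠ 0 := by
  classical
  by_contra hcon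
  push Not at hcon
  set Φ := Phi D x y with hΦ
  -- the kernel
  have ky : Φ (y, 0) = 0 := by
    funext m
    rw [hΦ, Phi_apply]
    have h := lineP_derivative (D.F m) x y
    rw [hcon m, Polynomial.derivative_zero] at h
    simp only [Pi.zero_apply, map_zero, mul_zero, add_zero]
    exact h.symm
  have kx : Φ (x, 0) = 0 := by
    funext m
    have h := lineP_euler (D.hom m) x y
    rw [hcon m, smul_zero] at h
    have h2 := congrFun ky m
    rw [hΦ, Phi_apply] at h2 ⊢
    simp only [Pi.zero_apply, map_zero, mul_zero, add_zero] at h2 ⊢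
    have h3 : ∑ p, lineP (pderiv p (D.F m)) x y *
        (Polynomial.C (x p) + Polynomial.X * Polynomial.C (y p)) =
        ∑ p, lineP (pderiv p (D.F m)) x y * Polynomial.C (x p) +
        Polynomial.X * ∑ p, lineP (pderiv p (D.F m)) x y * Polynomial.C (y p) := by
      rw [Finset.mul_sum, ← Finset.sum_add_distrib]
      exact Finset.sum_congr rfl fun p _ => by ring
    rw [h3, h2, mul_zero, add_zero] at h
    exact h
  have kT : ∀ u : Fin (n + 1) → L, Φ (u, 0) = 0 → Φ (0, u) = 0 := by
    intro u hu
    funext m
    have h2 := congrFun hu m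
    rw [hΦ, Phi_apply] at h2 ⊢
    simp only [Pi.zero_apply, map_zero, mul_zero, add_zero, zero_add] at h2 ⊢
    have h3 : ∑ p, lineP (pderiv p (D.F m)) x y * (Polynomial.X * Polynomial.C (u p)) =
        Polynomial.X * ∑ p, lineP (pderiv p (D.F m)) x y * Polynomial.C (u p) := by
      rw [Finset.mul_sum]
      exact Finset.sum_congr rfl fun p _ => by ring
    rw [h3, h2, mul_zero]
  have hker : 4 ≤ Module.finrank L (LinearMap.ker Φ) := by
    let b : Fin 4 → (Fin (n + 1) → L) × (Fin (n + 1) → L) := ![(x, 0), (y, 0), (0, x), (0, y)]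
    have hb : ∀ i, b i ∈ LinearMap.ker Φ := by
      intro i
      fin_cases i
      · exact kx
      · exact ky
      · exact kT x kx
      · exact kT y ky
    have hli : LinearIndependent L b := by
      rw [Fintype.linearIndependent_iff]
      intro g hg
      rw [Fin.sum_univ_four] at hg
      have h1 := congrArg Prod.fst hg
      have h2 := congrArg Prod.snd hg
      simp only [b, Matrix.cons_val_zero, Matrix.cons_val_one, Matrix.cons_val,
        Prod.fst_add, Prod.snd_add, Prod.smul_fst, Prod.smul_snd, smul_zero, add_zero, zero_add,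
        Prod.fst_zero, Prod.snd_zero] at h1 h2
      rw [LinearIndependent.pair_iff] at hxy
      have h3 := hxy _ _ h1
      have h4 := hxy _ _ h2
      intro i
      fin_cases i
      · exact h3.1
      · exact h3.2
      · exact h4.1
      · exact h4.2
    have hli' : LinearIndependent L (fun i => (⟨b i, hb i⟩ : LinearMap.ker Φ)) :=
      LinearIndependent.of_comp (LinearMap.ker Φ).subtype hli
    simpa using hli'.fintype_card_le_finrank
  -- the range
  have hrange : c + ∑ m, d m ≤ Module.finrank L (LinearMap.range Φ) := by
    choose G hG using fun q : (Σ m : Fin c, Fin (d m + 1)) =>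
      exists_form hxy (d q.1) q.2 (Nat.lt_succ_iff.1 q.2.2)
    let b : (Σ m : Fin c, Fin (d m + 1)) → (Fin c → Polynomial L) := fun q =>
      fun m' => if q.1 = m' then - (Polynomial.X ^ (q.2 : ℕ) : Polynomial L) else 0
    have hb : ∀ q, b q ∈ LinearMap.range Φ := by
      intro q
      refine ⟨(D.V x q.1 (G q), D.V y q.1 (G q)), ?_⟩
      rw [hΦ, Phi_V D x y hcon q.1 (G q) (hG q).1, (hG q).2]
    have hli : LinearIndependent L b := by
      rw [Fintype.linearIndependent_iff]
      rintro g hg ⟨m, k⟩
      have h1 := congrFun hg m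
      rw [Finset.sum_apply] at h1
      have h2 := congrArg (fun P => Polynomial.coeff P (k : ℕ)) h1
      simp only [Pi.smul_apply, Polynomial.finsetSum_coeff, Polynomial.coeff_smul,
        Pi.zero_apply, Polynomial.coeff_zero] at h2
      rw [Finset.sum_eq_single ⟨m, k⟩] at h2
      · simpa [b] using h2
      · rintro ⟨m', k'⟩ _ hne
        simp only [b]
        by_cases hm : m' = m
        · subst hm
          have hk : (k' : ℕ) ≠ k := by
            intro h
            apply hne
            have : k' = k := Fin.ext h
            rw [this]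
          simp [Polynomial.coeff_X_pow, Ne.symm hk]
        · simp [hm]
      · intro h
        exact absurd (Finset.mem_univ _) h
    have hli' : LinearIndependent L (fun i => (⟨b i, hb i⟩ : LinearMap.range Φ)) :=
      LinearIndependent.of_comp (LinearMap.range Φ).subtype hli
    have := hli'.fintype_card_le_finrank
    rw [Fintype.card_sigma] at this
    simp only [Fintype.card_fin, Finset.sum_add_distrib, Finset.sum_const, Finset.card_univ,
      smul_eq_mul, mul_one] at this
    omega
  have htot := LinearMap.finrank_range_add_finrank_ker Φ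
  have hd2 : Module.finrank L ((Fin (n + 1) → L) × (Fin (n + 1) → L)) = 2 * (n + 1) := by
    rw [Module.finrank_prod, Module.finrank_fin_fun]
    ring
  rw [hd2] at htot
  omega

end Pool.Agent.Sharp.H54
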