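import Pool.Agent.Lib.MP_c7af3c_ag.SHARP.Base54

/-!
# MP_c7af3c_ag, project SHARP: roots of polynomials (module ROOTH)
-/

set_option autoImplicit false

namespace Pool.Agent.Sharp.H54

open WithZero Pool.Agent.Gen Pool.Agent.Sharp

variable {L : Type} [Field L]

/-- a root of a polynomial at one place -/
theorem root_local (v : Valuation L ℤᵐ⁰) (Q : Polynomial L) (hQ : Q ≠ 0) (z : L)
    (hz : Q.eval z = 0) (b : ℤ) (hb : ∀ k, v (Q.coeff k) ≤ exp b) :
    log (max 1 (v z)) ≤ b - log (v Q.leadingCoeff) := by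
  have hlc : Q.leadingCoeff ≠ 0 := Polynomial.leadingCoeff_ne_zero.2 hQ
  have hv0 : v Q.leadingCoeff ≠ 0 := by rwa [Ne, map_eq_zero]
  have h1 : log (v Q.leadingCoeff) ≤ b := by
    have := hb Q.natDegree
    rw [← Polynomial.leadingCoeff, ← exp_log hv0] at this
    simpa using WithZero.exp_le_exp.1 this
  rcases le_total (v z) 1 with h | h
  · rw [max_eq_left h, log_one]
    linarith
  · rw [max_eq_right h]
    have hz0 : v z ≠ 0 := fun h0 => by rw [h0] at h; exact absurd h (by simp)
    set D := Q.natDegree with hD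
    have hDpos : D ≠ 0 := by
      intro h0
      rw [Polynomial.eq_C_of_natDegree_eq_zero (p := Q) h0] at hz hQ
      rw [Polynomial.eval_C] at hz
      rw [hz] at hQ
      exact hQ (by simp)
    have hsum : Q.leadingCoeff * z ^ D = - ∑ i ∈ Finset.range D, Q.coeff i * z ^ i := by
      rw [Polynomial.eval_eq_sum_range, Finset.sum_range_succ] at hz
      rw [Polynomial.leadingCoeff]
      linear_combination hz
    have h2 : v (Q.leadingCoeff * z ^ D) ≤ exp b * v z ^ (D - 1) := by
      rw [hsum, Valuation.map_neg]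
      refine v.map_sum_le fun i hi => ?_
      rw [map_mul, map_pow]
      refine mul_le_mul' (hb i) (pow_le_pow_right' h ?_)
      have := Finset.mem_range.1 hi
      omega
    rw [map_mul, map_pow] at h2
    have h3 : v Q.leadingCoeff * v z ≤ exp b := by
      have e1 : v z ^ D = v z * v z ^ (D - 1) := by
        rw [← pow_succ']
        congr 1
        omega
      rw [e1, ← mul_assoc] at h2
      exact (mul_le_mul_iff_left₀ (zero_lt_iff.2 (pow_ne_zero _ hz0))).1 h2
    rw [← exp_log hv0, ← exp_log hz0, ← exp_add] at h3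
    have := WithZero.exp_le_exp.1 h3
    linarith

/-- Module ROOTH. -/
theorem rooth (S : PlaceSys L) (hS : S.IsProd) (Q : Polynomial L) (hQ : Q ≠ 0) (z : L)
    (hz : Q.eval z = 0) (b : S.V → ℤ) (hbf : {p | b p ≠ 0}.Finite)
    (hb : ∀ p k, S.v p (Q.coeff k) ≤ exp (b p)) :
    S.ht (n := 1) ![1, z] ≤ ∑ᶠ p, (S.w p : ℤ) * b p := by
  classical
  have hlc : Q.leadingCoeff ≠ 0 := Polynomial.leadingCoeff_ne_zero.2 hQ
  have hx : (![1, z] : Fin 2 → L) ≠ 0 := fun h => one_ne_zero (congrFun h 0)
  have hf1 := S.finite_mx (n := 1) ![1, z] hS.fin hx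
  have hf2 := hS.fin _ hlc
  set T : Finset S.V := hf1.toFinset ∪ hf2.toFinset ∪ hbf.toFinset with hT
  have hs1 : S.ht (n := 1) ![1, z] = ∑ p ∈ T, (S.w p : ℤ) * log (S.mx (n := 1) ![1, z] p) := by
    refine finsum_eq_sum_of_support_subset _ fun p hp => ?_
    simp only [Function.mem_support, ne_eq, mul_eq_zero, not_or] at hp
    rw [hT]
    simp only [Finset.coe_union, Set.Finite.coe_toFinset, Set.mem_union, Set.mem_ofPred_eq]
    left; left
    exact fun h1 => hp.2 (by rw [h1, log_one])
  have hs2 : ∑ᶠ p, (S.w p : ℤ) * log (S.v p Q.leadingCoeff) =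
      ∑ p ∈ T, (S.w p : ℤ) * log (S.v p Q.leadingCoeff) := by
    refine finsum_eq_sum_of_support_subset _ fun p hp => ?_
    simp only [Function.mem_support, ne_eq, mul_eq_zero, not_or] at hp
    rw [hT]
    simp only [Finset.coe_union, Set.Finite.coe_toFinset, Set.mem_union, Set.mem_ofPred_eq]
    left; right
    exact fun h1 => hp.2 (by rw [h1, log_one])
  have hs3 : ∑ᶠ p, (S.w p : ℤ) * b p = ∑ p ∈ T, (S.w p : ℤ) * b p := by
    refine finsum_eq_sum_of_support_subset _ fun p hp => ?_
    simp only [Function.mem_support, ne_eq, mul_eq_zero, not_or] at hp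
    rw [hT]
    simp only [Finset.coe_union, Set.Finite.coe_toFinset, Set.mem_union, Set.mem_ofPred_eq]
    right
    exact hp.2
  have h0 := hS.prod _ hlc
  rw [hs2] at h0
  rw [hs1, hs3, ← sub_zero (∑ p ∈ T, (S.w p : ℤ) * b p), ← h0, ← Finset.sum_sub_distrib]
  refine Finset.sum_le_sum fun p _ => ?_
  rw [← mul_sub]
  refine mul_le_mul_of_nonneg_left ?_ (by positivity)
  have h1 : S.mx (n := 1) ![1, z] p = max 1 (S.v p z) := by
    apply le_antisymm
    · refine Finset.sup'_le _ _ fun j _ => ?_
      fin_cases j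
      · simp
      · simp
    · refine max_le ?_ ?_
      · have := S.le_mx (n := 1) ![1, z] p 0
        simpa using this
      · have := S.le_mx (n := 1) ![1, z] p 1
        simpa using this
  rw [h1]
  exact root_local (S.v p) Q hQ z hz (b p) (hb p)

end Pool.Agent.Sharp.H54
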